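import Pool.Agent.V5helper74.IR.TWO

/-! Job SIDE of project IR. -/

set_option autoImplicit false

open Finset Filter Topology
open scoped Classical

namespace Pool.Agent.V5helper74.IR

open Pool.Agent.V5helper26.IR

variable {α : Type} [Fintype α]

theorem lo_congr {r : α → α → Prop} {f g : α → ℕ} {x : α} (h : ∀ z, r z x → f z = g z) :
    lo r f x = lo r g x := by
  unfold lo
  exact Finset.sup_congr rfl fun z hz => h z (Finset.mem_filter.mp hz).2

theorem hi_congr {r : α → α → Prop} (M : ℕ) {f g : α → ℕ} {x : α} (h : ∀ z, r x z → f z = g z) :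
    hi r M f x = hi r M g x := by
  unfold hi
  congr 1
  apply Finset.sup_congr rfl
  intro z hz
  rw [h z (Finset.mem_filter.mp hz).2]

theorem le_hi {r : α → α → Prop} {M : ℕ} {f : α → ℕ} {x : α} {m : ℕ} (hm : m ≤ M - 1)
    (h : ∀ z, r x z → m ≤ f z) : m ≤ hi r M f x := by
  unfold hi
  have : (univ.filter fun z => r x z).sup (fun z => M - 1 - f z) ≤ M - 1 - m := by
    apply Finset.sup_le
    intro z hz
    have := h z (Finset.mem_filter.mp hz).2
    omega
  omega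

theorem lo_mono {r : α → α → Prop} {f : α → ℕ} {x y : α} (h : ∀ z, r z x → r z y) :
    lo r f x ≤ lo r f y :=
  lo_le_of fun z hz => le_lo f (h z hz)

theorem pr_union_le (r : α → α → Prop) (M : ℕ) (C : Finset α) (p : α → (α → ℕ) → Prop) (c : ℝ)
    (h : ∀ x ∈ C, pr r M (p x) ≤ c) : pr r M (fun f => ∃ x ∈ C, p x f) ≤ C.card * c := by
  have h1 : pr r M (fun f => ∃ x ∈ C, p x f) ≤ ∑ x ∈ C, pr r M (p x) := by
    unfold pr
    rw [← Finset.sum_div]
    apply div_le_div_of_nonneg_right _ (Nat.cast_nonneg _)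
    have : ((Om r M).filter fun f => ∃ x ∈ C, p x f) ⊆
        C.biUnion fun x => (Om r M).filter (p x) := by
      intro f hf
      obtain ⟨hf1, x, hx, hf2⟩ := Finset.mem_filter.mp hf
      exact Finset.mem_biUnion.mpr ⟨x, hx, Finset.mem_filter.mpr ⟨hf1, hf2⟩⟩
    have h2 := (Finset.card_le_card this).trans Finset.card_biUnion_le
    have h3 : (((Om r M).filter fun f => ∃ x ∈ C, p x f).card : ℝ) ≤
        ∑ x ∈ C, (((Om r M).filter (p x)).card : ℝ) := by exact_mod_cast h2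
    refine le_trans (le_of_eq ?_) (h3.trans (le_of_eq ?_)) <;> congr!
  refine h1.trans ?_
  calc _ ≤ ∑ _x ∈ C, c := Finset.sum_le_sum h
    _ = C.card * c := by rw [Finset.sum_const, nsmul_eq_mul]

theorem pr_mono (r : α → α → Prop) (M : ℕ) {p q : (α → ℕ) → Prop} (h : ∀ f, p f → q f) :
    pr r M p ≤ pr r M q := by
  unfold pr
  apply div_le_div_of_nonneg_right _ (Nat.cast_nonneg _)
  have : (Om r M).filter p ⊆ (Om r M).filter q := by
    intro f hf
    obtain ⟨hf1, hf2⟩ := Finset.mem_filter.mp hf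
    exact Finset.mem_filter.mpr ⟨hf1, h f hf2⟩
  exact_mod_cast Finset.card_le_card this

theorem sum_if {ι : Type} (S : Finset ι) (G : ι → Prop) (F : ι → ℝ) :
    (∑ f ∈ S, if G f then F f else 0) = ∑ f ∈ S.filter G, F f := by
  rw [Finset.sum_filter]

theorem two_pow_Lb (b : ℕ) : 2 ^ 22 * b ^ 5 ≤ 2 ^ Lb b := by
  unfold Lb
  have h : b ≤ 2 ^ Nat.clog 2 b := Nat.le_pow_clog (by norm_num) b
  calc 2 ^ 22 * b ^ 5 ≤ 2 ^ 22 * (2 ^ Nat.clog 2 b) ^ 5 :=
        Nat.mul_le_mul_left _ (Nat.pow_le_pow_left h 5)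
    _ = 2 ^ (22 + 5 * Nat.clog 2 b) := by rw [← pow_mul, pow_add, mul_comm 5]

theorem t_SIDE (h1 : S_GRP) (h2 : S_TAIL) (h3 : S_VV) : S_SIDE := by
  intro α _ r M b κ C hC e he einj emono
  have hM := hC.one_M
  have hb := hC.one_b
  have hbκ := hC.le_κ
  have hb1 : (1 : ℝ) ≤ b := by exact_mod_cast hb
  have hb0 : (0 : ℝ) < b := by linarith
  have hκ1 : (1 : ℝ) ≤ κ := hb1.trans hbκ
  have hκ0 : 0 < κ := by linarith
  set L : ℕ := Lb b with hL
  have hL22 : 22 ≤ L := by rw [hL]; unfold Lb; omega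
  have hL22' : (22 : ℝ) ≤ L := by exact_mod_cast hL22
  set T1 : ℕ := ⌈8 * κ⌉₊ with hT1
  have hT1a : 8 * κ ≤ T1 := Nat.le_ceil _
  have hT1b : (T1 : ℝ) ≤ 9 * κ := by
    have := Nat.ceil_lt_add_one (show 0 ≤ 8 * κ by linarith)
    linarith
  set Λ : ℝ := 2 * L * T1 with hΛ
  have hΛb : (b : ℝ) ≤ Λ := by
    rw [hΛ]; nlinarith
  have hΛ0 : 0 < Λ := by linarith
  have hΛ18 : Λ ≤ 18 * L * κ := by
    rw [hΛ]; nlinarith
  -- values at points of `C` do not matter
  have hdiag : ∀ x ∈ C, ¬ r x x := fun x hx => hC.anti x hx x hx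
  obtain ⟨G, hG⟩ : ∃ G : (α → ℕ) → Prop, ∀ f, G f ↔ ∀ x ∈ C, ln r M f x ≤ 2 * L * T1 :=
    ⟨fun f => ∀ x ∈ C, ln r M f x ≤ 2 * L * T1, fun _ => Iff.rfl⟩
  have locC : ∀ f g : α → ℕ, (∀ z, z ∉ C → f z = g z) → ∀ x ∈ C, lo r f x = lo r g x := by
    intro f g hfg x hx
    exact lo_congr fun z hz => hfg z fun hzC => hC.anti z hzC x hx hz
  have hicC : ∀ f g : α → ℕ, (∀ z, z ∉ C → f z = g z) → ∀ x ∈ C, hi r M f x = hi r M g x := by
    intro f g hfg x hx
    exact hi_congr M fun z hz => hfg z fun hzC => hC.anti x hx z hzC hz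
  have hGc : ∀ f g : α → ℕ, (∀ z, z ∉ C → f z = g z) → (G f ↔ G g) := by
    intro f g hfg
    simp only [hG]
    constructor
    · intro h x hx
      have := h x hx
      unfold ln at this ⊢
      rw [← locC f g hfg x hx, ← hicC f g hfg x hx]; exact this
    · intro h x hx
      have := h x hx
      unfold ln at this ⊢
      rw [locC f g hfg x hx, hicC f g hfg x hx]; exact this
  -- the probability of the complement of `G`
  have hprG : pr r M (fun f => ¬ G f) ≤ 1 / (2 ^ 18 * (b : ℝ) ^ 2) := by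
    have hsub : ∀ f : α → ℕ, ¬ G f → ∃ x ∈ C, 2 * L * T1 ≤ ln r M f x := by
      intro f hf
      simp only [hG, not_forall] at hf
      obtain ⟨x, hx, hx'⟩ := hf
      exact ⟨x, hx, by omega⟩
    have hu := pr_union_le r M C (fun x f => 2 * L * T1 ≤ ln r M f x) (2 / 2 ^ L) (by
      intro x hx
      have hk := hC.kap x hx
      exact ((h3 α r M x hM (hdiag x hx)).2.2.2 L T1 (by linarith [hk.2])).2)
    refine (pr_mono r M hsub).trans (hu.trans ?_)
    rw [hC.card]
    have h2L : (2 : ℝ) ^ 22 * (b : ℝ) ^ 5 ≤ 2 ^ L := by exact_mod_cast two_pow_Lb b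
    have h2L0 : (0 : ℝ) < 2 ^ L := by positivity
    rw [mul_div_assoc', div_le_div_iff₀ h2L0 (by positivity)]
    push_cast
    calc (8 * (b : ℝ) ^ 3 * 2) * (2 ^ 18 * (b : ℝ) ^ 2) = 2 ^ 22 * (b : ℝ) ^ 5 := by ring
      _ ≤ 1 * 2 ^ L := by linarith
  -- the groups
  set S := (Om r M).filter G with hS
  set N : ℝ := ((Om r M).card : ℝ) with hN
  have hN0 : 0 < N := by
    have := (Om_nonempty r hM).card_pos
    rw [hN]; exact_mod_cast this
  set a : ℕ → (α → ℕ) → ℝ := fun i f => (lo r f (e i) : ℝ) with ha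
  have hamono : ∀ f : α → ℕ, ∀ i j : ℕ, i ≤ j → j < 8 * b ^ 3 → a i f ≤ a j f := by
    intro f i j hij hj
    simp only [ha]
    exact_mod_cast lo_mono (emono i j hij hj)
  have hb3 : 0 < 8 * b ^ 3 := by positivity
  have halast : ∀ f ∈ S, a (8 * b ^ 3 - 1) f - a 0 f ≤ Λ := by
    intro f hf
    obtain ⟨hf1, hf2⟩ := Finset.mem_filter.mp hf
    rw [hG] at hf2
    have hf1' := mem_Om.mp hf1
    have he0 := he 0 hb3
    have hel := he (8 * b ^ 3 - 1) (by omega)
    have hle : lo r f (e (8 * b ^ 3 - 1)) ≤ hi r M f (e 0) := by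
      apply le_hi
      · have := lo_lt (r := r) hM hf1'.1 (e (8 * b ^ 3 - 1))
        omega
      · intro z' hz'
        apply lo_le_of
        intro z hz
        exact hf1'.2 z z' (hC.cross (e 0) he0 (e (8 * b ^ 3 - 1)) hel z z' hz hz')
    have h := hf2 (e 0) he0
    unfold ln at h
    have h' : lo r f (e (8 * b ^ 3 - 1)) ≤ lo r f (e 0) + 2 * L * T1 := by omega
    have h'' : ((lo r f (e (8 * b ^ 3 - 1)) : ℕ) : ℝ) ≤ (lo r f (e 0) : ℝ) + 2 * L * T1 := by
      exact_mod_cast h'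
    simp only [ha, hΛ]
    linarith
  have hcardS : (S.card : ℝ) ≤ N := by
    rw [hN, hS]; exact_mod_cast Finset.card_filter_le _ _
  have hgrp := h1 (α → ℕ) S N Λ b a hb hΛ0.le hcardS
    (fun f _ i j hij hj => hamono f i j hij hj) halast
  set T : ℕ := ⌈2 ^ 14 * Λ ^ 2 / (b * κ)⌉₊ with hT
  refine ⟨(range b).filter (GoodG S N Λ b a), 2 * L * T, Finset.filter_subset _ _, ?_, ?_, ?_⟩
  · have : range b \ (range b).filter (GoodG S N Λ b a) =
        (range b).filter fun j => ¬ GoodG S N Λ b a j := by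
      ext j; simp only [Finset.mem_sdiff, Finset.mem_filter]; tauto
    rw [this]
    convert hgrp using 2
  · -- bound for `τ`
    have hTb : (T : ℝ) ≤ 2 ^ 14 * Λ ^ 2 / (b * κ) + 1 :=
      (Nat.ceil_lt_add_one (by positivity)).le
    have hΛsq : Λ ^ 2 ≤ 324 * (L : ℝ) ^ 2 * κ ^ 2 := by
      calc Λ ^ 2 ≤ (18 * L * κ) ^ 2 := pow_le_pow_left₀ hΛ0.le hΛ18 2
        _ = 324 * (L : ℝ) ^ 2 * κ ^ 2 := by ring
    have hq : 1 ≤ κ / b := by rw [le_div_iff₀ hb0]; linarith
    have h4 : 2 ^ 14 * Λ ^ 2 / (b * κ) ≤ 2 ^ 14 * 324 * (L : ℝ) ^ 2 * (κ / b) := by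
      rw [div_le_iff₀ (by positivity)]
      calc 2 ^ 14 * Λ ^ 2 ≤ 2 ^ 14 * (324 * (L : ℝ) ^ 2 * κ ^ 2) := by linarith
        _ = 2 ^ 14 * 324 * (L : ℝ) ^ 2 * (κ / b) * (b * κ) := by field_simp
    have h5 : (1 : ℝ) ≤ 2 ^ 14 * (L : ℝ) ^ 2 * (κ / b) := by
      have : (1 : ℝ) ≤ (L : ℝ) ^ 2 := by nlinarith
      nlinarith
    have h6 : (T : ℝ) ≤ 2 ^ 14 * 325 * (L : ℝ) ^ 2 * (κ / b) := by linarith
    push_cast
    calc 2 * (L : ℝ) * T ≤ 2 * (L : ℝ) * (2 ^ 14 * 325 * (L : ℝ) ^ 2 * (κ / b)) :=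
          mul_le_mul_of_nonneg_left h6 (by positivity)
      _ = (2 ^ 15 * 325) * ((L : ℝ) ^ 3 * (κ / b)) := by ring
      _ ≤ 2 ^ 24 * ((L : ℝ) ^ 3 * (κ / b)) :=
          mul_le_mul_of_nonneg_right (by norm_num) (by positivity)
      _ = 2 ^ 24 * (L : ℝ) ^ 3 * κ / b := by ring
  · intro j hj
    obtain ⟨hjb, hgood1, i₀, hi₀, hgood2⟩ := Finset.mem_filter.mp hj
    rw [Finset.mem_range] at hjb
    set i : ℕ := 8 * b ^ 2 * j + 7 * b ^ 2 + i₀ * b with hi_def
    have hib : i + b ≤ 8 * b ^ 2 * (j + 1) := by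
      have : i₀ * b + b ≤ b ^ 2 := by
        calc i₀ * b + b = (i₀ + 1) * b := by ring
          _ ≤ b * b := Nat.mul_le_mul_right b hi₀
          _ = b ^ 2 := by ring
      rw [hi_def]
      nlinarith
    have hjb3 : 8 * b ^ 2 * (j + 1) ≤ 8 * b ^ 3 := by
      calc 8 * b ^ 2 * (j + 1) ≤ 8 * b ^ 2 * b := Nat.mul_le_mul_left _ hjb
        _ = 8 * b ^ 3 := by ring
    have hi1 : i < 8 * b ^ 2 * (j + 1) := by omega
    have hi0 : 8 * b ^ 2 * j ≤ i := by rw [hi_def]; omega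
    refine ⟨i, by rw [hi_def]; omega, hi1, ?_⟩
    set B : Finset α := (Ico i (i + b)).image e with hB
    have hBC : ∀ x ∈ B, x ∈ C := by
      intro x hx
      obtain ⟨k, hk, rfl⟩ := Finset.mem_image.mp hx
      rw [Finset.mem_Ico] at hk
      exact he k (by omega)
    have hBcard : B.card = b := by
      rw [hB, Finset.card_image_of_injOn, Nat.card_Ico]
      · omega
      · intro k hk l hl hkl
        simp only [Finset.coe_Ico, Set.mem_Ico] at hk hl
        exact einj k (by omega) l (by omega) hkl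
    have hy0B : e i ∈ B := Finset.mem_image.mpr ⟨i, Finset.mem_Ico.mpr (by omega), rfl⟩
    set Δ : (α → ℕ) → ℝ := fun f => a (8 * b ^ 2 * (j + 1) - 1) f - a (8 * b ^ 2 * j) f with hΔ
    have hΔ0 : ∀ f, 0 ≤ Δ f := by
      intro f
      simp only [hΔ]
      have := hamono f (8 * b ^ 2 * j) (8 * b ^ 2 * (j + 1) - 1) (by omega) (by omega)
      linarith
    have hsup : ∀ f : α → ℕ, B.sup (lo r f) ≤ lo r f (e (i + (b - 1))) := by
      intro f
      apply Finset.sup_le
      intro x hx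
      obtain ⟨k, hk, rfl⟩ := Finset.mem_image.mp hx
      rw [Finset.mem_Ico] at hk
      exact lo_mono (emono k (i + (b - 1)) (by omega) (by omega))
    have hBnot : ∀ f g : α → ℕ, (∀ z, z ∉ B → f z = g z) → (∀ z, z ∉ C → f z = g z) :=
      fun f g h z hz => h z fun hzB => hz (hBC z hzB)
    have htail := h2 α r M B (e i) (e (8 * b ^ 2 * j)) κ Λ G Δ T hM
      (fun x hx y hy => hC.anti x (hBC x hx) y (hBC y hy)) hy0B
      (emono _ _ hi0 (by omega))
      (by
        intro y hy z hz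
        obtain ⟨k, hk, rfl⟩ := Finset.mem_image.mp hy
        rw [Finset.mem_Ico] at hk
        exact emono i k hk.1 (by omega) z hz)
      hκ0 (fun y hy => hC.kap y (hBC y hy)) (by rw [hBcard]; exact hΛb)
      (fun f g h => hGc f g (hBnot f g h))
      (by
        intro f g h
        have h' := hBnot f g h
        simp only [hΔ, ha]
        rw [locC f g h' _ (he (8 * b ^ 2 * (j + 1) - 1) (by omega)),
          locC f g h' _ (he (8 * b ^ 2 * j) (by omega))])
      (by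
        intro f _ hf y hy
        have := (hG f).mp hf y (hBC y hy)
        rw [hΛ]
        exact_mod_cast this)
      (by
        intro f _
        have h5 := hsup f
        have h6 : lo r f (e (i + (b - 1))) ≤ lo r f (e (8 * b ^ 2 * (j + 1) - 1)) :=
          lo_mono (emono _ _ (by omega) (by omega))
        have h7 : ((B.sup (lo r f) : ℕ) : ℝ) ≤ (lo r f (e (8 * b ^ 2 * (j + 1) - 1)) : ℝ) := by
          exact_mod_cast h5.trans h6
        simp only [hΔ, ha]
        linarith)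
      (by
        rw [hBcard]
        unfold ex
        rw [div_le_iff₀ hN0]
        refine le_trans (le_of_eq ?_) hgood1
        exact sum_if (Om r M) G Δ)
      (by
        rw [hBcard]
        unfold ex
        rw [div_le_iff₀ hN0]
        refine le_trans ?_ hgood2
        refine le_trans (le_of_eq (sum_if (Om r M) G
          (fun f => (((B.sup (lo r f) : ℕ) : ℝ) - lo r f (e i)) * Δ f))) ?_
        apply Finset.sum_le_sum
        intro f _
        apply mul_le_mul_of_nonneg_right _ (hΔ0 f)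
        have h5 : ((B.sup (lo r f) : ℕ) : ℝ) ≤ (lo r f (e (i + (b - 1))) : ℝ) := by
          exact_mod_cast hsup f
        simp only [ha]
        linarith)
      (by rw [hBcard]; exact hprG)
      (by rw [hBcard]; exact Nat.le_ceil _)
      L
    have h2L : (2 : ℝ) ^ 22 * (b : ℝ) ^ 5 ≤ 2 ^ L := by exact_mod_cast two_pow_Lb b
    refine htail.trans ?_
    rw [hBcard, div_le_div_iff₀ (by positivity) (by positivity)]
    have hb5 : (0 : ℝ) ≤ (b : ℝ) ^ 5 := by positivity
    calc 6 * (b : ℝ) * (b : ℝ) ^ 4 = 6 * (b : ℝ) ^ 5 := by ring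
      _ ≤ 2 ^ 22 * (b : ℝ) ^ 5 := by nlinarith
      _ ≤ 1 * 2 ^ L := by linarith

end Pool.Agent.V5helper74.IR
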