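import Pool.Agent.V5helper26.IR.Stm

/-! Job TWO of project IR. -/

set_option autoImplicit false

open Finset Filter Topology
open scoped Classical

namespace Pool.Agent.V5helper74.IR

open Pool.Agent.V5helper26.IR

variable {α : Type} [Fintype α]

theorem lo_upd {r : α → α → Prop} (f : α → ℕ) {x y : α} (h : ¬ r y x) (u : ℕ) :
    lo r (Function.update f y u) x = lo r f x := by
  unfold lo
  apply Finset.sup_congr rfl
  intro z hz
  have hz' : r z x := (Finset.mem_filter.mp hz).2
  have : z ≠ y := by rintro rfl; exact h hz'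
  simp [Function.update_of_ne this]

theorem hi_upd {r : α → α → Prop} (M : ℕ) (f : α → ℕ) {x y : α} (h : ¬ r x y) (u : ℕ) :
    hi r M (Function.update f y u) x = hi r M f x := by
  unfold hi
  congr 1
  apply Finset.sup_congr rfl
  intro z hz
  have hz' : r x z := (Finset.mem_filter.mp hz).2
  have : z ≠ y := by rintro rfl; exact h hz'
  simp [Function.update_of_ne this]

theorem ln_upd {r : α → α → Prop} (M : ℕ) (f : α → ℕ) {x y : α} (h : ¬ r x y) (h' : ¬ r y x)
    (u : ℕ) : ln r M (Function.update f y u) x = ln r M f x := by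
  unfold ln
  rw [lo_upd f h', hi_upd M f h]

theorem mem_Om {r : α → α → Prop} {M : ℕ} {f : α → ℕ} :
    f ∈ Om r M ↔ (∀ a, f a < M) ∧ ∀ a b, r a b → f a ≤ f b := by
  simp [Om, Fintype.mem_piFinset]

theorem lo_le {r : α → α → Prop} {M : ℕ} {f : α → ℕ} (hf : f ∈ Om r M) (x : α) :
    lo r f x ≤ f x := by
  unfold lo
  apply Finset.sup_le
  intro z hz
  exact (mem_Om.mp hf).2 z x (Finset.mem_filter.mp hz).2

theorem lo_lt {r : α → α → Prop} {M : ℕ} (hM : 1 ≤ M) {f : α → ℕ} (hf : ∀ a, f a < M) (x : α) :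
    lo r f x < M := by
  unfold lo
  rw [Finset.sup_lt_iff (show (⊥ : ℕ) < M by rw [Nat.bot_eq_zero]; omega)]
  intro z _
  exact hf z

theorem le_lo {r : α → α → Prop} (f : α → ℕ) {z x : α} (h : r z x) : f z ≤ lo r f x := by
  unfold lo
  exact Finset.le_sup (f := f) (by simpa using h)

theorem lo_le_of {r : α → α → Prop} {f : α → ℕ} {x : α} {m : ℕ} (h : ∀ z, r z x → f z ≤ m) :
    lo r f x ≤ m := by
  unfold lo
  exact Finset.sup_le fun z hz => h z (Finset.mem_filter.mp hz).2

theorem Om_nonempty (r : α → α → Prop) {M : ℕ} (hM : 1 ≤ M) : (Om r M).Nonempty :=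
  ⟨fun _ => 0, mem_Om.mpr ⟨fun _ => hM, fun _ _ _ => le_refl _⟩⟩

theorem Bot_nonempty (r : α → α → Prop) {M : ℕ} (hM : 1 ≤ M) (x : α) :
    ((Om r M).filter fun f => f x = lo r f x).Nonempty := by
  refine ⟨fun _ => 0, Finset.mem_filter.mpr ⟨mem_Om.mpr ⟨fun _ => hM, fun _ _ _ => le_refl _⟩, ?_⟩⟩
  exact (Nat.le_zero.mp (lo_le_of fun _ _ => le_refl 0)).symm

/-- FIB on the subset where the value at `y` is smallest possible. -/
theorem fib2 (h1 : S_FIB) (r : α → α → Prop) (M : ℕ) (x y : α) (hM : 1 ≤ M)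
    (hxy : x ≠ y) (hxx : ¬ r x x) (hxy' : ¬ r x y) (φ : (α → ℕ) → ℝ) :
    ∑ g ∈ (Om r M).filter (fun g => g y = lo r g y), φ g =
      ∑ g ∈ (Om r M).filter (fun g => g x = lo r g x ∧ g y = lo r g y),
        ∑ u ∈ Icc (lo r g x) (hi r M g x), φ (Function.update g x u) := by
  rw [Finset.sum_filter, h1 α r M x hM hxx, ← Finset.filter_filter,
    Finset.sum_filter (s := (Om r M).filter _)]
  apply Finset.sum_congr rfl
  intro g _
  by_cases h : g y = lo r g y
  · rw [if_pos h]
    apply Finset.sum_congr rfl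
    intro u _
    rw [if_pos]
    rw [Function.update_of_ne hxy.symm, lo_upd g hxy' u]
    exact h
  · rw [if_neg h]
    apply Finset.sum_eq_zero
    intro u _
    rw [if_neg]
    rw [Function.update_of_ne hxy.symm, lo_upd g hxy' u]
    exact h

theorem half_sq (a b : ℕ) :
    (((b + 1 - a : ℕ) : ℝ)) ^ 2 / 2 ≤ ∑ u ∈ Icc a b, (((u - a : ℕ) : ℝ) + 1) := by
  have hI : Icc a b = Ico a (b + 1) := by
    ext u; simp only [Finset.mem_Icc, Finset.mem_Ico]; omega
  rw [hI, Finset.sum_Ico_eq_sum_range]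
  have h : ∀ n : ℕ, ((n : ℝ)) ^ 2 / 2 ≤ ∑ i ∈ range n, (((a + i - a : ℕ) : ℝ) + 1) := by
    intro n
    induction n with
    | zero => simp
    | succ n ih =>
      rw [Finset.sum_range_succ]
      have : ((a + n - a : ℕ) : ℝ) = n := by
        have : a + n - a = n := by omega
        rw [this]
      rw [this]
      push_cast
      nlinarith
  exact h _

theorem cnt2 (a b τ : ℕ) :
    ((Icc a b).filter fun u => u < a + τ ∨ b < u + τ).card ≤ 2 * τ := by
  have hsub : ((Icc a b).filter fun u => u < a + τ ∨ b < u + τ) ⊆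
      Ico a (a + τ) ∪ Ico (b + 1 - τ) (b + 1) := by
    intro u hu
    simp only [Finset.mem_filter, Finset.mem_Icc] at hu
    simp only [Finset.mem_union, Finset.mem_Ico]
    omega
  calc _ ≤ _ := Finset.card_le_card hsub
    _ ≤ (Ico a (a + τ)).card + (Ico (b + 1 - τ) (b + 1)).card := Finset.card_union_le _ _
    _ ≤ 2 * τ := by
      simp only [Nat.card_Ico]
      omega

/-- the relation which says in addition that the values at `x` and `y` are equal -/
def rr (r : α → α → Prop) (x y : α) : α → α → Prop := fun a b =>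
  (r a b ∧ a ≠ y ∧ b ≠ y) ∨ (r a y ∧ r y b) ∨ (a = y ∧ b = x) ∨ (a = x ∧ b = y)

theorem card_eq (r : α → α → Prop) (M : ℕ) (x y : α) (hM : 1 ≤ M)
    (hxy : x ≠ y) (hyy : ¬ r y y) (h12 : ¬ r x y) (h21 : ¬ r y x) (t : ℕ) :
    (((Om r M).filter fun g => g y = lo r g y).filter fun g => t ≤ g x - lo r g x).card =
    ((Om (rr r x y) M).filter fun f => (univ.filter fun z => r z x).sup f + t ≤ f x).card := by
  have hsup : ∀ f : α → ℕ, (univ.filter fun z => r z x).sup f = lo r f x := fun f => rfl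
  refine Finset.card_nbij' (fun g => Function.update g y (g x))
    (fun h => Function.update h y (lo r h y)) ?_ ?_ ?_ ?_
  · intro g hg
    simp only [Finset.coe_filter, Set.mem_ofPred_eq, Finset.mem_filter] at hg
    obtain ⟨⟨hg1, hg2⟩, hg3⟩ := hg
    have hg1' := mem_Om.mp hg1
    simp only [Finset.coe_filter, Set.mem_ofPred_eq]
    refine ⟨mem_Om.mpr ⟨?_, ?_⟩, ?_⟩
    · intro a
      by_cases ha : a = y
      · subst ha; simpa using hg1'.1 x
      · rw [Function.update_of_ne ha]; exact hg1'.1 a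
    · rintro a b (⟨hab, ha, hb⟩ | ⟨hay, hyb⟩ | ⟨rfl, rfl⟩ | ⟨rfl, rfl⟩)
      · rw [Function.update_of_ne ha, Function.update_of_ne hb]; exact hg1'.2 a b hab
      · have ha : a ≠ y := by rintro rfl; exact hyy hay
        have hb : b ≠ y := by rintro rfl; exact hyy hyb
        rw [Function.update_of_ne ha, Function.update_of_ne hb]
        exact (hg1'.2 a y hay).trans (hg1'.2 y b hyb)
      · rw [Function.update_self, Function.update_of_ne hxy]
      · rw [Function.update_self, Function.update_of_ne hxy]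
    · rw [hsup, lo_upd g h21, Function.update_of_ne hxy]
      have := lo_le hg1 x
      omega
  · intro h hh
    simp only [Finset.coe_filter, Set.mem_ofPred_eq] at hh
    obtain ⟨hh1, hh2⟩ := hh
    have hh1' := mem_Om.mp hh1
    simp only [Finset.coe_filter, Set.mem_ofPred_eq, Finset.mem_filter]
    refine ⟨⟨mem_Om.mpr ⟨?_, ?_⟩, ?_⟩, ?_⟩
    · intro a
      by_cases ha : a = y
      · subst ha; simpa using lo_lt hM hh1'.1 _
      · rw [Function.update_of_ne ha]; exact hh1'.1 a
    · intro a b hab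
      by_cases ha : a = y
      · subst ha
        have hb : b ≠ a := by rintro rfl; exact hyy hab
        rw [Function.update_self, Function.update_of_ne hb]
        exact lo_le_of fun z hz => hh1'.2 z b (Or.inr (Or.inl ⟨hz, hab⟩))
      · by_cases hb : b = y
        · subst hb
          rw [Function.update_self, Function.update_of_ne ha]
          exact le_lo h hab
        · rw [Function.update_of_ne ha, Function.update_of_ne hb]
          exact hh1'.2 a b (Or.inl ⟨hab, ha, hb⟩)
    · rw [Function.update_self, lo_upd h hyy]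
    · rw [hsup] at hh2
      rw [Function.update_of_ne hxy, lo_upd h h21]
      omega
  · intro g hg
    simp only [Finset.coe_filter, Set.mem_ofPred_eq, Finset.mem_filter] at hg
    obtain ⟨⟨hg1, hg2⟩, hg3⟩ := hg
    simp only [lo_upd g hyy, Function.update_idem]
    rw [← hg2, Function.update_eq_self]
  · intro h hh
    simp only [Finset.coe_filter, Set.mem_ofPred_eq] at hh
    obtain ⟨hh1, hh2⟩ := hh
    have hh1' := mem_Om.mp hh1
    simp only [Function.update_of_ne hxy, Function.update_idem]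
    have e1 : h x = h y := le_antisymm (hh1'.2 x y (Or.inr (Or.inr (Or.inr ⟨rfl, rfl⟩))))
      (hh1'.2 y x (Or.inr (Or.inr (Or.inl ⟨rfl, rfl⟩))))
    rw [e1, Function.update_eq_self]

theorem key (h1 : S_FIB) (h2 : S_NBU) (h3 : S_ABS) (r : α → α → Prop) (M : ℕ) (x y : α)
    (hM : 1 ≤ M) (hxy : x ≠ y) (hxx : ¬ r x x) (hyy : ¬ r y y) (h12 : ¬ r x y) (h21 : ¬ r y x) :
    (((Om r M).filter (fun g => g x = lo r g x ∧ g y = lo r g y)).card : ℝ) *
      ∑ g ∈ (Om r M).filter (fun g => g x = lo r g x ∧ g y = lo r g y), (ln r M g x : ℝ) ^ 2 ≤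
    2 * (((Om r M).filter (fun g => g y = lo r g y)).card : ℝ) ^ 2 := by
  set S := (Om r M).filter (fun g => g y = lo r g y) with hS
  set W := (Om r M).filter (fun g => g x = lo r g x ∧ g y = lo r g y) with hW
  have hyp : ∀ s t : ℕ, S.card * (S.filter fun g => s + t ≤ g x - lo r g x).card ≤
      (S.filter fun g => s ≤ g x - lo r g x).card *
        (S.filter fun g => t ≤ g x - lo r g x).card := by
    intro s t
    have h := h2 α (rr r x y) M x (univ.filter fun z => r z x) s t
    rw [card_eq r M x y hM hxy hyy h12 h21 (s + t), card_eq r M x y hM hxy hyy h12 h21 s,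
      card_eq r M x y hM hxy hyy h12 h21 t]
    have h0 := card_eq r M x y hM hxy hyy h12 h21 0
    simp only [Nat.zero_le, Finset.filter_true, Nat.add_zero] at h0
    rw [hS, h0]
    exact h
  have hA := (h3 (α → ℕ) S (fun g => g x - lo r g x) hyp).1 1
  have hWe : (S.filter fun g => g x - lo r g x < 1) = W := by
    ext g
    simp only [hS, hW, Finset.mem_filter]
    constructor
    · rintro ⟨⟨a, b⟩, c⟩
      have := lo_le a x
      exact ⟨a, by omega, b⟩
    · rintro ⟨a, b, c⟩
      exact ⟨⟨a, c⟩, by omega⟩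
  rw [hWe, one_mul] at hA
  have hA' : ((∑ g ∈ S, ((g x - lo r g x : ℕ) + 1 : ℝ))) * (W.card : ℝ) ≤ (S.card : ℝ) ^ 2 := by
    exact_mod_cast hA
  have hsum := fib2 h1 r M x y hM hxy hxx h12 (fun g => ((g x - lo r g x : ℕ) + 1 : ℝ))
  rw [← hS, ← hW] at hsum
  rw [hsum] at hA'
  have hge : ∑ g ∈ W, (ln r M g x : ℝ) ^ 2 / 2 ≤ ∑ g ∈ W, ∑ u ∈ Icc (lo r g x) (hi r M g x),
      (((Function.update g x u x - lo r (Function.update g x u) x : ℕ) : ℝ) + 1) := by
    apply Finset.sum_le_sum
    intro g _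
    have := half_sq (lo r g x) (hi r M g x)
    simp only [Function.update_self, lo_upd g hxx]
    exact this
  rw [← Finset.sum_div] at hge
  have hW0 : (0 : ℝ) ≤ W.card := Nat.cast_nonneg _
  nlinarith [mul_le_mul_of_nonneg_right hge hW0]

theorem t_TWO (h1 : S_FIB) (h2 : S_NBU) (h3 : S_ABS) : S_TWO := by
  intro α _ r M x y hM hxy hxx hyy h12 h21 τ
  have hkx := key h1 h2 h3 r M x y hM hxy hxx hyy h12 h21
  have hky := key h1 h2 h3 r M y x hM hxy.symm hyy hxx h21 h12
  have hcomm : ((Om r M).filter (fun g => g y = lo r g y ∧ g x = lo r g x)) =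
      (Om r M).filter (fun g => g x = lo r g x ∧ g y = lo r g y) := by
    ext g; simp only [Finset.mem_filter]; tauto
  rw [hcomm] at hky
  set W := (Om r M).filter (fun g => g x = lo r g x ∧ g y = lo r g y) with hW
  set a : ℝ := (((Om r M).filter (fun g => g x = lo r g x)).card : ℝ) with ha
  set b : ℝ := (((Om r M).filter (fun g => g y = lo r g y)).card : ℝ) with hb
  have ha0 : 0 < a := by
    have := (Bot_nonempty r hM x).card_pos
    rw [ha]; exact_mod_cast this
  have hb0 : 0 < b := by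
    have := (Bot_nonempty r hM y).card_pos
    rw [hb]; exact_mod_cast this
  have hN0 : (0 : ℝ) < (Om r M).card := by
    have := (Om_nonempty r hM).card_pos
    exact_mod_cast this
  -- double fibres
  have hdbl : ∀ φ : (α → ℕ) → ℝ, ∑ f ∈ Om r M, φ f = ∑ g ∈ W,
      ∑ u ∈ Icc (lo r g x) (hi r M g x), ∑ v ∈ Icc (lo r g y) (hi r M g y),
        φ (Function.update (Function.update g x u) y v) := by
    intro φ
    rw [h1 α r M y hM hyy φ, fib2 h1 r M x y hM hxy hxx h12]
    apply Finset.sum_congr rfl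
    intro g _
    apply Finset.sum_congr rfl
    intro u _
    rw [lo_upd g h12, hi_upd M g h21]
  have hNe : ((Om r M).card : ℝ) = ∑ g ∈ W, (ln r M g x : ℝ) * (ln r M g y : ℝ) := by
    have := hdbl (fun _ => 1)
    simp only [Finset.sum_const, nsmul_eq_mul, mul_one, Nat.card_Icc] at this
    rw [this]
    rfl
  have hCS : ((W.card : ℝ) * (Om r M).card) ≤ 2 * (a * b) := by
    have h := Finset.sum_mul_sq_le_sq_mul_sq W (fun g => (ln r M g x : ℝ))
      (fun g => (ln r M g y : ℝ))
    rw [← hNe] at h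
    have hW0 : (0 : ℝ) ≤ W.card := Nat.cast_nonneg _
    have h' : ((W.card : ℝ) * (Om r M).card) ^ 2 ≤ (2 * (a * b)) ^ 2 := by
      calc ((W.card : ℝ) * (Om r M).card) ^ 2 = (W.card : ℝ) ^ 2 * ((Om r M).card : ℝ) ^ 2 := by
            ring
        _ ≤ (W.card : ℝ) ^ 2 * ((∑ g ∈ W, (ln r M g x : ℝ) ^ 2) * ∑ g ∈ W, (ln r M g y : ℝ) ^ 2) :=
            mul_le_mul_of_nonneg_left h (by positivity)
        _ = ((W.card : ℝ) * ∑ g ∈ W, (ln r M g x : ℝ) ^ 2) *
            ((W.card : ℝ) * ∑ g ∈ W, (ln r M g y : ℝ) ^ 2) := by ring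
        _ ≤ (2 * b ^ 2) * (2 * a ^ 2) := by
            apply mul_le_mul hkx hky
            · apply mul_nonneg hW0
              exact Finset.sum_nonneg fun _ _ => by positivity
            · positivity
        _ = (2 * (a * b)) ^ 2 := by ring
    exact (pow_le_pow_iff_left₀ (by positivity) (by positivity) two_ne_zero).mp h'
  have hE : (((Om r M).filter fun f => outT r M τ x f ∧ outT r M τ y f).card : ℝ) ≤
      (W.card : ℝ) * (4 * (τ : ℝ) ^ 2) := by
    rw [Finset.card_eq_sum_ones, Nat.cast_sum]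
    simp only [Nat.cast_one]
    rw [Finset.sum_filter, hdbl]
    have : (W.card : ℝ) * (4 * (τ : ℝ) ^ 2) = ∑ _g ∈ W, (4 * (τ : ℝ) ^ 2) := by
      rw [Finset.sum_const, nsmul_eq_mul]
    rw [this]
    apply Finset.sum_le_sum
    intro g _
    have e1 : ∀ u v : ℕ, (outT r M τ x (Function.update (Function.update g x u) y v) ∧
        outT r M τ y (Function.update (Function.update g x u) y v)) ↔
        (u < lo r g x + τ ∨ hi r M g x < u + τ) ∧ (v < lo r g y + τ ∨ hi r M g y < v + τ) := by
      intro u v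
      unfold outT
      rw [Function.update_of_ne hxy, Function.update_self, Function.update_self,
        lo_upd _ h21, lo_upd _ hxx, hi_upd _ _ h12, hi_upd _ _ hxx,
        lo_upd _ hyy, lo_upd _ h12, hi_upd _ _ hyy, hi_upd _ _ h21]
    simp only [e1]
    have e2 : ∑ u ∈ Icc (lo r g x) (hi r M g x), ∑ v ∈ Icc (lo r g y) (hi r M g y),
        (if (u < lo r g x + τ ∨ hi r M g x < u + τ) ∧ (v < lo r g y + τ ∨ hi r M g y < v + τ)
          then (1 : ℝ) else 0) =
        (((Icc (lo r g x) (hi r M g x)).filter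
          fun u => u < lo r g x + τ ∨ hi r M g x < u + τ).card : ℝ) *
        (((Icc (lo r g y) (hi r M g y)).filter
          fun u => u < lo r g y + τ ∨ hi r M g y < u + τ).card : ℝ) := by
      rw [← Finset.sum_boole, ← Finset.sum_boole, Finset.sum_mul_sum]
      apply Finset.sum_congr rfl
      intro u _
      apply Finset.sum_congr rfl
      intro v _
      by_cases hu : (u < lo r g x + τ ∨ hi r M g x < u + τ) <;>
        by_cases hv : (v < lo r g y + τ ∨ hi r M g y < v + τ) <;> simp [hu, hv]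
    rw [e2]
    have c1 : (((Icc (lo r g x) (hi r M g x)).filter
          fun u => u < lo r g x + τ ∨ hi r M g x < u + τ).card : ℝ) ≤ 2 * τ := by
      exact_mod_cast cnt2 (lo r g x) (hi r M g x) τ
    have c2 : (((Icc (lo r g y) (hi r M g y)).filter
          fun u => u < lo r g y + τ ∨ hi r M g y < u + τ).card : ℝ) ≤ 2 * τ := by
      exact_mod_cast cnt2 (lo r g y) (hi r M g y) τ
    calc _ ≤ (2 * (τ : ℝ)) * (2 * τ) := mul_le_mul c1 c2 (Nat.cast_nonneg _) (by positivity)
      _ = 4 * (τ : ℝ) ^ 2 := by ring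
  have hk : 8 * (τ : ℝ) ^ 2 / (kap r M x * kap r M y) =
      8 * (τ : ℝ) ^ 2 * (a * b) / ((Om r M).card * (Om r M).card) := by
    unfold kap
    rw [← ha, ← hb]
    field_simp
  have hpr : pr r M (fun f => outT r M τ x f ∧ outT r M τ y f) =
      (((Om r M).filter fun f => outT r M τ x f ∧ outT r M τ y f).card : ℝ) / (Om r M).card := by
    unfold pr
    congr!
  rw [hk, hpr]
  rw [div_le_div_iff₀ hN0 (mul_pos hN0 hN0)]
  have hfin : (((Om r M).filter fun f => outT r M τ x f ∧ outT r M τ y f).card : ℝ) *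
      (Om r M).card ≤ 8 * (τ : ℝ) ^ 2 * (a * b) := by
    calc _ ≤ ((W.card : ℝ) * (4 * (τ : ℝ) ^ 2)) * (Om r M).card :=
          mul_le_mul_of_nonneg_right hE hN0.le
      _ = 4 * (τ : ℝ) ^ 2 * ((W.card : ℝ) * (Om r M).card) := by ring
      _ ≤ 4 * (τ : ℝ) ^ 2 * (2 * (a * b)) := mul_le_mul_of_nonneg_left hCS (by positivity)
      _ = _ := by ring
  calc _ = ((((Om r M).filter fun f => outT r M τ x f ∧ outT r M τ y f).card : ℝ) *
      (Om r M).card) * (Om r M).card := by ring
    _ ≤ _ := mul_le_mul_of_nonneg_right hfin hN0.le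

end Pool.Agent.V5helper74.IR
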